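import Pool.Agent.Y245.SG.Stm

/-! # SG-BNC and SG-BINF: zeros of the functions `Bn` -/

set_option autoImplicit false

open Complex Filter Topology Set

namespace Pool.Agent.Y987.SG

open Pool.Agent.Y245.SG

lemma Bn_zero (ν : ℕ) : Bn ν 0 = 1 / (ν.factorial : ℂ) := by
  unfold Bn
  rw [tsum_eq_single 0]
  · simp
  · intro k hk
    simp [hk]

lemma iter (h : S_BES) (ν k : ℕ) :
    iteratedDeriv k (Bn ν) = fun z => (-1) ^ k * Bn (ν + k) z := by
  induction k with
  | zero => simp [iteratedDeriv_zero]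
  | succ k ih =>
    rw [iteratedDeriv_succ, ih]
    funext z
    have h1 := ((h (ν + k)).2.2.1 z).const_mul ((-1 : ℂ) ^ k)
    rw [h1.deriv, pow_succ]
    have e : ν + (k + 1) = ν + k + 1 := by ring
    rw [e]; ring

theorem bnc : S_BNC := by
  intro h ν z ⟨h0, h1⟩
  have hB0 : Bn ν 0 ≠ 0 := by
    rw [Bn_zero]
    have : (ν.factorial : ℂ) ≠ 0 := by exact_mod_cast ν.factorial_ne_zero
    exact div_ne_zero one_ne_zero this
  by_cases hz : z = 0
  · rw [hz] at h0; exact hB0 h0
  have hall : ∀ j : ℕ, Bn (ν + j) z = 0 ∧ Bn (ν + j + 1) z = 0 := by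
    intro j
    induction j with
    | zero => exact ⟨h0, h1⟩
    | succ j ih =>
      refine ⟨ih.2, ?_⟩
      have h2 := (h (ν + j)).2.2.2 z
      rw [ih.1, ih.2, mul_zero, sub_zero] at h2
      have e : ν + (j + 1) + 1 = ν + j + 2 := by ring
      rw [e]
      rcases mul_eq_zero.1 h2 with h3 | h3
      · exact absurd h3 hz
      · exact h3
  have ht := Complex.taylorSeries_eq_of_entire (h ν).1 z 0
  rw [← ht] at hB0
  apply hB0
  have : ∀ n : ℕ, ((n.factorial : ℂ))⁻¹ • (0 - z) ^ n • iteratedDeriv n (Bn ν) z = 0 := by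
    intro n
    rw [iter h]
    simp only
    rw [(hall n).1]; simp
  rw [tsum_congr this, tsum_zero]

/-- the real function -/
noncomputable def be (ν : ℕ) (t : ℝ) : ℝ :=
  ∑' k : ℕ, (-t) ^ k / ((k.factorial : ℝ) * ((k + ν).factorial : ℝ))

lemma be_cast (ν : ℕ) (t : ℝ) : Bn ν (t : ℂ) = ((be ν t : ℝ) : ℂ) := by
  unfold Bn be
  rw [Complex.ofReal_tsum]
  congr 1
  funext k
  push_cast
  rfl

lemma be_deriv (h : S_BES) (ν : ℕ) (t : ℝ) : HasDerivAt (be ν) (-be (ν + 1) t) t := by
  have h1 := ((h ν).2.2.1 (t : ℂ)).real_of_complex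
  have e : (fun x : ℝ => (Bn ν (x : ℂ)).re) = be ν := by
    funext x
    rw [be_cast, Complex.ofReal_re]
  rw [e, be_cast] at h1
  simpa using h1

lemma be_rec (h : S_BES) (t : ℝ) : t * be 2 t = be 1 t - be 0 t := by
  have h1 := (h 0).2.2.2 (t : ℂ)
  have e1 := be_cast 2 t
  have e2 := be_cast 1 t
  have e3 := be_cast 0 t
  simp only [zero_add, Nat.cast_zero, one_mul] at h1
  rw [e1, e2, e3] at h1
  exact_mod_cast h1

/-- a positive solution of Bessel's equation cannot live on an interval of length `π` -/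
lemma no_pos (J J1 J2 : ℝ → ℝ) (h1 : ∀ x, HasDerivAt J (J1 x) x) (h2 : ∀ x, HasDerivAt J1 (J2 x) x)
    (heq : ∀ x, x * J2 x + J1 x + x * J x = 0) (a : ℝ) (ha : 0 < a)
    (hpos : ∀ x ∈ Icc a (a + Real.pi), 0 < J x) : False := by
  set G : ℝ → ℝ := fun x => Real.sqrt x * (J1 x * Real.sin (x - a) - J x * Real.cos (x - a))
    + J x * Real.sin (x - a) / (2 * Real.sqrt x) with hG
  have hpi := Real.pi_pos
  have hder : ∀ x, 0 < x → HasDerivAt G (-(J x * Real.sin (x - a)) / (4 * x * Real.sqrt x)) x := by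
    intro x hx
    have hs : 0 < Real.sqrt x := Real.sqrt_pos.2 hx
    have hss : Real.sqrt x * Real.sqrt x = x := Real.mul_self_sqrt hx.le
    have d1 : HasDerivAt Real.sqrt (1 / (2 * Real.sqrt x)) x := Real.hasDerivAt_sqrt hx.ne'
    have d2 : HasDerivAt (fun x => Real.sin (x - a)) (Real.cos (x - a)) x := by
      have := ((hasDerivAt_id x).sub_const a).sin
      simpa using this
    have d3 : HasDerivAt (fun x => Real.cos (x - a)) (-Real.sin (x - a)) x := by
      have := ((hasDerivAt_id x).sub_const a).cos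
      simpa using this
    have d4 := d1.mul (((h2 x).mul d2).sub ((h1 x).mul d3))
    have d5 := ((h1 x).mul d2).div (d1.const_mul 2) (by positivity : (2 * Real.sqrt x) ≠ 0)
    have d6 := d4.add d5
    have hval : (-(J x * Real.sin (x - a)) / (4 * x * Real.sqrt x)) =
        (1 / (2 * Real.sqrt x) * (J1 x * Real.sin (x - a) - J x * Real.cos (x - a)) +
          Real.sqrt x * (J2 x * Real.sin (x - a) + J1 x * Real.cos (x - a) -
            (J1 x * Real.cos (x - a) + J x * -Real.sin (x - a)))) +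
        ((J1 x * Real.sin (x - a) + J x * Real.cos (x - a)) * (2 * Real.sqrt x) -
          J x * Real.sin (x - a) * (2 * (1 / (2 * Real.sqrt x)))) / (2 * Real.sqrt x) ^ 2 := by
      have hJ2 : J2 x = -(J1 x + x * J x) / x := by
        field_simp
        linarith [heq x]
      rw [hJ2]
      generalize hr : Real.sqrt x = r at *
      rw [← hss]
      field_simp
      ring
    rw [hval]
    exact d6
  have hanti : AntitoneOn G (Icc a (a + Real.pi)) := by
    apply antitoneOn_of_deriv_nonpos (convex_Icc _ _)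
    · intro x hx
      exact (hder x (by linarith [hx.1])).continuousAt.continuousWithinAt
    · intro x hx
      rw [interior_Icc] at hx
      exact (hder x (by linarith [hx.1])).differentiableAt.differentiableWithinAt
    · intro x hx
      rw [interior_Icc] at hx
      have hx0 : 0 < x := by linarith [hx.1]
      rw [(hder x hx0).deriv]
      have hs : 0 < Real.sqrt x := Real.sqrt_pos.2 hx0
      have hJ := hpos x ⟨hx.1.le, hx.2.le⟩
      have hsin : 0 < Real.sin (x - a) :=
        Real.sin_pos_of_pos_of_lt_pi (by linarith [hx.1]) (by linarith [hx.2])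
      apply div_nonpos_of_nonpos_of_nonneg
      · have := mul_pos hJ hsin
        linarith
      · positivity
  have h3 := hanti (left_mem_Icc.2 (by linarith)) (right_mem_Icc.2 (by linarith))
    (by linarith : a ≤ a + Real.pi)
  have hGa : G a = -(Real.sqrt a * J a) := by
    simp [hG]
  have hGb : G (a + Real.pi) = Real.sqrt (a + Real.pi) * J (a + Real.pi) := by
    simp [hG]
  rw [hGa, hGb] at h3
  have p1 := mul_pos (Real.sqrt_pos.2 ha) (hpos a (left_mem_Icc.2 (by linarith)))
  have p2 := mul_pos (Real.sqrt_pos.2 (by linarith : 0 < a + Real.pi))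
    (hpos (a + Real.pi) (right_mem_Icc.2 (by linarith)))
  linarith

lemma exists_zero (J J1 J2 : ℝ → ℝ) (h1 : ∀ x, HasDerivAt J (J1 x) x)
    (h2 : ∀ x, HasDerivAt J1 (J2 x) x) (heq : ∀ x, x * J2 x + J1 x + x * J x = 0)
    (a : ℝ) (ha : 0 < a) : ∃ x ∈ Icc a (a + Real.pi), J x = 0 := by
  by_contra hcon
  push Not at hcon
  have hpi := Real.pi_pos
  have hcont : ContinuousOn J (Icc a (a + Real.pi)) := fun x _ =>
    (h1 x).continuousAt.continuousWithinAt
  have hconn := isPreconnected_Icc (a := a) (b := a + Real.pi)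
  have hamem : a ∈ Icc a (a + Real.pi) := left_mem_Icc.2 (by linarith)
  rcases lt_or_gt_of_ne (hcon a hamem) with hneg | hpos
  · -- J a < 0
    have hall : ∀ x ∈ Icc a (a + Real.pi), 0 < -J x := by
      intro x hx
      by_contra hc
      push Not at hc
      have hx0 : 0 ≤ J x := by linarith
      obtain ⟨y, hy, hy0⟩ := hconn.intermediate_value hamem hx hcont ⟨hneg.le, hx0⟩
      exact hcon y hy hy0
    exact no_pos (fun x => -J x) (fun x => -J1 x) (fun x => -J2 x) (fun x => (h1 x).neg)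
      (fun x => (h2 x).neg) (fun x => by have := heq x; linarith) a ha hall
  · have hall : ∀ x ∈ Icc a (a + Real.pi), 0 < J x := by
      intro x hx
      by_contra hc
      push Not at hc
      obtain ⟨y, hy, hy0⟩ := hconn.intermediate_value hx hamem hcont ⟨hc, hpos.le⟩
      exact hcon y hy hy0
    exact no_pos J J1 J2 h1 h2 heq a ha hall

theorem binf : S_BINF := by
  intro h
  have hz : ∀ a : ℝ, 0 < a → ∃ x ∈ Icc a (a + Real.pi), be 0 (x ^ 2 / 4) = 0 := by
    refine exists_zero (fun x => be 0 (x ^ 2 / 4)) (fun x => -be 1 (x ^ 2 / 4) * (x / 2))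
      (fun x => be 1 (x ^ 2 / 4) / 2 - be 0 (x ^ 2 / 4)) ?_ ?_ ?_
    · intro x
      have d : HasDerivAt (fun x : ℝ => x ^ 2 / 4) (x / 2) x :=
        ((hasDerivAt_pow 2 x).div_const 4).congr_deriv (by norm_num; ring)
      exact (be_deriv h 0 (x ^ 2 / 4)).comp x d
    · intro x
      have d : HasDerivAt (fun x : ℝ => x ^ 2 / 4) (x / 2) x :=
        ((hasDerivAt_pow 2 x).div_const 4).congr_deriv (by norm_num; ring)
      have d1 := ((be_deriv h 1 (x ^ 2 / 4)).comp x d).neg
      have d2 : HasDerivAt (fun x : ℝ => x / 2) (1 / 2) x := (hasDerivAt_id x).div_const 2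
      have d3 := d1.mul d2
      refine d3.congr_deriv ?_
      have hr := be_rec h (x ^ 2 / 4)
      have e : (1 + 1 : ℕ) = 2 := rfl
      rw [e]
      show -(-be 2 (x ^ 2 / 4) * (x / 2)) * (x / 2) + -be 1 (x ^ 2 / 4) * (1 / 2) =
        be 1 (x ^ 2 / 4) / 2 - be 0 (x ^ 2 / 4)
      nlinarith
    · intro x
      ring
  intro hfin
  obtain ⟨R, hR⟩ := hfin.isBounded.exists_norm_le
  have hR0 : 0 ≤ R ∨ R < 0 := le_or_gt 0 R
  set a : ℝ := |R| + 4 with ha
  have ha4 : 4 ≤ a := by rw [ha]; linarith [abs_nonneg R]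
  obtain ⟨x, hx, hx0⟩ := hz a (by linarith)
  have hmem : ((x ^ 2 / 4 : ℝ) : ℂ) ∈ {z : ℂ | Bn 0 z = 0} := by
    show Bn 0 ((x ^ 2 / 4 : ℝ) : ℂ) = 0
    rw [be_cast, hx0]; simp
  have h1 := hR _ hmem
  rw [Complex.norm_real, Real.norm_eq_abs, abs_of_nonneg (by positivity)] at h1
  have h2 : a ≤ x := hx.1
  have h3 : R < a := by rw [ha]; linarith [le_abs_self R]
  nlinarith

end Pool.Agent.Y987.SG
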